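import Pool.Agent.H620.Thr.Height
import Pool.Agent.H620.Inf2.Depth

/-!
# Heights at most `2 / log (16/9) log n + c` are not decided by circuits of small depth

Let `h(m)` be the height of the odd number `m`, and let the height of `n = 2 ^ e m` be that of its odd part `m`; except for
the powers of two this is the number of the odd terms of the trajectory of `n` before `1`. The conjectured average order of
the height is `2 / log (16/9) log m`. For each real `c` the set of the integers `n` whose height is at most
`2 / log (16/9) log n + c` is hard in the following sense, unconditionally: for each `0 < g < 1 / 2`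

(a) its total influence on the `k` lowest binary digits, that is the mean number of the binary digits of `n < 2 ^ k` whose
change moves `n` from the set to its complement or back, is larger than `k ^ g`, for infinitely many `k`;

(b) for infinitely many `k` and all `D ≥ 2` with `(D - 1) (log log k + 1) ≤ g log k`, each circuit of depth at most `D` (with
gates NOT, AND, OR of unbounded fan-in) and size at most `exp (k ^ (g / (D - 1)))` is wrong about the membership in the set
for more than `2 ^ k / k ^ (1 - g)` of the `n < 2 ^ k`.

So whether the height is larger than its average order is not decided by circuits of polynomial size and depth at most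
`a log k / log log k`, `a < 1 / 2`, not even on average.

Proof. The argument is the one of the file `CriticalThreshold` of the problem MP_a1568a_nt, for the number of odd terms: `J`
steps of the shortcut function with `o` odd terms lead from `n` to about `(3 ^ o / 2 ^ J) n`, and the bounds for the two numbers
differ by `o` for `o = J / 2` and no other `o`, since `J / 2 = 2 / log (16/9) (J log 2 - (J / 2) log 3)`. The density of the set is
`δ / 2` by the law of the numbers of odd terms (library), `δ > 0` the density of the `n` with finite height.
-/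

set_option autoImplicit false

namespace Pool.Agent.Results.MP_2b866c_nt.CriticalHeights

open Filter
open DomAC0 (Circuit)

/-- `C(m) = (3m+1)/2^e(m)`, `2^e(m)` the largest power of `2` dividing `3m+1` -/
def C (m : ℕ) : ℕ := (3 * m + 1) / 2 ^ padicValNat 2 (3 * m + 1)

/-- `h` is the height of `m`, the least `h ≥ 1` with `C^h(m) = 1` -/
def IsHeight (m h : ℕ) : Prop := 1 ≤ h ∧ C^[h] m = 1 ∧ ∀ k, 1 ≤ k → k < h → C^[k] m ≠ 1

/-- the odd part of `n ≥ 1` -/
def oddPart (n : ℕ) : ℕ := n / 2 ^ padicValNat 2 n

/-- The positive integers `n` whose odd part has a finite height `h ≤ 2 / log (16/9) * log n + c`. -/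
def Below (c : ℝ) : Set ℕ :=
  {n | 1 ≤ n ∧ ∃ h : ℕ, IsHeight (oddPart n) h ∧ (h : ℝ) ≤ 2 / Real.log (16 / 9) * Real.log n + c}

/-- The `k` lowest binary digits of `n`. -/
def digits (k n : ℕ) : Fin k → Bool := fun i => n.testBit i

/-- The total influence of `S` on the integers with `k` binary digits: the mean, for `n < 2 ^ k`, of the number of the
`i < k` such that exactly one of `n` and the integer `n xor 2 ^ i`, obtained by changing the digit `i` of `n`, is in `S`. -/
noncomputable def influence (S : Set ℕ) (k : ℕ) : ℝ :=
  ({p : ℕ × ℕ | p.1 < 2 ^ k ∧ p.2 < k ∧ ¬ (p.1 ∈ S ↔ p.1 ^^^ 2 ^ p.2 ∈ S)}.ncard : ℝ) / 2 ^ k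

/-- The number of the `n < 2 ^ k` for which the circuit `Γ` is wrong about the membership in `S`. -/
noncomputable def errors (S : Set ℕ) {k : ℕ} (Γ : Circuit (Fin k)) : ℕ :=
  {n : ℕ | n < 2 ^ k ∧ ¬ (Γ.eval (digits k n) = true ↔ n ∈ S)}.ncard

/-- `S` is hard: for each `0 < g < 1 / 2`, the total influence of `S` is larger than `k ^ g` for infinitely many `k`, and, for
infinitely many `k` and all `D ≥ 2` with `(D - 1) (log log k + 1) ≤ g log k`, each circuit of depth at most `D` and size at
most `exp (k ^ (g / (D - 1)))` is wrong about the membership in `S` for more than `2 ^ k / k ^ (1 - g)` of the `n < 2 ^ k`. -/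
def Hard (S : Set ℕ) : Prop := ∀ g : ℝ, 0 < g → g < 1 / 2 →
  (∃ᶠ k : ℕ in atTop, (k : ℝ) ^ g < influence S k) ∧
  ∃ᶠ k : ℕ in atTop, ∀ D : ℕ, 2 ≤ D → ((D : ℝ) - 1) * (Real.log (Real.log k) + 1) ≤ g * Real.log k →
    ∀ Γ : Circuit (Fin k), Γ.depth ≤ D → (Γ.size : ℝ) ≤ Real.exp ((k : ℝ) ^ (g / ((D : ℝ) - 1))) →
      (2 : ℝ) ^ k / (k : ℝ) ^ (1 - g) < errors S Γ

open Pool.Agent.H620

theorem Hard.of_large {S : Set ℕ} (h : Inf2.Large (fun n => n ∈ S)) : Hard S :=
  fun _ hc0 hc => ⟨Inf2.large_infl h hc, Inf2.large_depth h hc0 hc⟩

theorem const_eq : 2 / Real.log (16 / 9) = 1 / Real.log (4 / 3) := by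
  have h1 : Real.log (16 / 9) = 2 * Real.log (4 / 3) := by
    rw [show (16 : ℝ) / 9 = (4 / 3) ^ 2 by norm_num, Real.log_pow]; push_cast; ring
  have h2 := Thr.log43_pos
  rw [h1]
  field_simp

/-- **Heights.** For every real `c` the set of the positive integers `n` whose odd part has a finite height at most
`2 / log (16/9) log n + c` is hard: large total influence, and not decided by circuits of small depth, not even on
average. -/
theorem result : ∀ c : ℝ, Hard (Below c) := by
  intro c
  refine Hard.of_large ?_
  have h := Thr.large_H c
  unfold Below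
  rw [const_eq]
  exact h

end Pool.Agent.Results.MP_2b866c_nt.CriticalHeights
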