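import Pool.Agent.H618.PM.Height

set_option autoImplicit false

/-!
# The average order of the height in the polynomial model of the `3x+1` map

In `F_2[x]` the analogue of the `3x+1` map on odd integers sends a polynomial `f` with constant term `1` to
`C(f) = ((x+1) f + 1) / x^e`, `x^e` being the largest power of `x` dividing `(x+1) f + 1`. As `(x+1) f` has
degree `deg f + 1` and `e` has mean `2`, the random walk heuristic predicts an average height asymptotic to the
degree `n`; this is the analogue of the prediction `2 log x / log (16/9)` for integers. We prove it, with a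
constant and an error smaller than every power of `1/n`: `H(n) = n - c + O_a(n^(-a))`.

Proof. The first `n - 1` parities of a random polynomial `f` of degree `n` with given value at `1` are exactly
independent fair bits. What is needed is that the value `f(1)` is forgotten. After `n - 1` accelerated steps with
`k` odd ones the orbit is at a polynomial of degree `k + 1`, determined modulo `(x+1)^(k+1)` by a random sum (the
Syracuse random variable of the model) plus `f(1) (x+1)^k`. Its characteristic function at a character `P` of exact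
level `k + 1` is a sum over lattice paths of signs read in a Pascal triangle modulo 2 attached to `P`. A path which
crosses a triangle of zeros of width `τ` leaves it through a column of ones, where the path sum is a discrete
derivative; so crossing gains `1/(τ+1)` in mean square, which gives a decay faster than any power of the level.
Parseval's formula and the injectivity of short words turn this into total variation.
-/

namespace Pool.Agent.Results.MP_2b866c_nt.PolynomialAverageHeight

open Polynomial

/-- the map on polynomials with constant term `1`: `((x+1) f + 1) / x^e`, with `x^e` the largest power of `x`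
dividing `(x+1) f + 1` -/
noncomputable def C (f : (ZMod 2)[X]) : (ZMod 2)[X] :=
  ((X + 1) * f + 1) /ₘ X ^ ((X + 1) * f + 1).natTrailingDegree

/-- the height: the least `k ≥ 1` with `C^k(f) = 1` -/
noncomputable def h (f : (ZMod 2)[X]) : ℕ := sInf {k : ℕ | 1 ≤ k ∧ C^[k] f = 1}

/-- the odd polynomials (constant term `1`) of degree at most `n` -/
def Odd (n : ℕ) : Set ((ZMod 2)[X]) := {f | f.coeff 0 = 1 ∧ f.natDegree ≤ n}

/-- the average of the height over the odd polynomials of degree at most `n` -/
noncomputable def H (n : ℕ) : ℝ := (∑ᶠ (f : (ZMod 2)[X]) (_ : f ∈ Odd n), (h f : ℝ)) / (Odd n).ncard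

theorem Odd_eq (n : ℕ) : Odd n = ((Finset.range (n + 1)).biUnion (fun j => Pool.Agent.H618.PM.Od j) : Finset ((ZMod 2)[X])) := by
  ext f
  simp only [Odd, Set.mem_ofPred_eq, Finset.coe_biUnion, Finset.coe_range, Set.mem_Iio, Set.mem_iUnion, Finset.mem_coe,
    Pool.Agent.H618.PM.mem_Od, Pool.Agent.Q74.FC.mem_D', Pool.Agent.H618.PM.par_one_iff, exists_prop]
  constructor
  · rintro ⟨h1, h2⟩
    refine ⟨f.natDegree, by omega, ⟨?_, rfl⟩, h1⟩
    rintro rfl
    simp at h1
  · rintro ⟨j, hj, ⟨h1, h2⟩, h3⟩
    exact ⟨h3, by omega⟩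

theorem disj (n : ℕ) : Set.PairwiseDisjoint (↑(Finset.range (n + 1))) (fun j => Pool.Agent.H618.PM.Od j) := by
  intro i _ j _ hij
  change Disjoint (Pool.Agent.H618.PM.Od i) (Pool.Agent.H618.PM.Od j)
  rw [Finset.disjoint_left]
  intro f h1 h2
  rw [Pool.Agent.H618.PM.mem_Od, Pool.Agent.Q74.FC.mem_D'] at h1 h2
  exact hij (h1.1.2.symm.trans h2.1.2)

theorem card_Od_zero : (Pool.Agent.H618.PM.Od 0).card = 1 := by
  rw [Finset.card_eq_one]
  refine ⟨1, ?_⟩
  ext f
  rw [Pool.Agent.H618.PM.mem_Od, Pool.Agent.Q74.FC.mem_D', Finset.mem_singleton]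
  constructor
  · rintro ⟨⟨h1, h2⟩, _⟩
    exact Pool.Agent.Q74.FC.eq_one_of_natDegree h1 h2
  · rintro rfl
    exact ⟨⟨one_ne_zero, natDegree_one⟩, Pool.Agent.H618.PM.one_odd⟩

theorem card_Od_succ (n : ℕ) : ((Pool.Agent.H618.PM.Od (n + 1)).card : ℝ) = 2 ^ n := by
  have h1 := Pool.Agent.H618.PM.even_odd_split n (fun _ => (1 : ℝ))
  simp only [Finset.sum_const, nsmul_eq_mul, mul_one, Pool.Agent.Q74.FC.card_D] at h1
  push_cast at h1
  rw [pow_succ] at h1
  linarith

theorem card_sum (n : ℕ) : (∑ j ∈ Finset.range (n + 1), ((Pool.Agent.H618.PM.Od j).card : ℝ)) = 2 ^ n := by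
  induction n with
  | zero => simp [card_Od_zero]
  | succ n ih => rw [Finset.sum_range_succ, ih, card_Od_succ, pow_succ]; ring

theorem ncard_Odd (n : ℕ) : ((Odd n).ncard : ℝ) = 2 ^ n := by
  rw [Odd_eq, Set.ncard_coe_finset, Finset.card_biUnion (disj n)]
  push_cast
  exact card_sum n

theorem H_eq (n : ℕ) : H n = Pool.Agent.H618.PM.mc n := by
  unfold H Pool.Agent.H618.PM.mc
  rw [ncard_Odd]
  congr 1
  rw [Odd_eq, finsum_mem_coe_finset, Finset.sum_biUnion (disj n)]
  rfl

/-- In `F_2[x]` every odd polynomial has finite height, and the average height of the odd polynomials of degree at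
most `n` is `n - c + O_a(n^(-a))` for a constant `c` and every `a`. -/
theorem result : (∀ f : (ZMod 2)[X], f.coeff 0 = 1 → ∃ k : ℕ, 1 ≤ k ∧ C^[k] f = 1) ∧
    ∃ c : ℝ, ∀ a : ℕ, ∃ K : ℝ, ∀ n : ℕ, 1 ≤ n → |H n - (n - c)| ≤ K / (n : ℝ) ^ a := by
  refine ⟨fun f hf => Pool.Agent.H618.PM.ht_finite hf, ?_⟩
  obtain ⟨c, hc⟩ := Pool.Agent.H618.PM.means
  refine ⟨c, fun a => ?_⟩
  obtain ⟨K, _, h⟩ := hc a
  refine ⟨K, fun n hn => ?_⟩
  rw [H_eq]
  exact (h n hn).2.2

end Pool.Agent.Results.MP_2b866c_nt.PolynomialAverageHeight
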